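import Pool.Agent.P.MP_6d14ae_al.C.Ext

/-! The twisted field layer over every base of size `s * s * t` other than four. -/

set_option autoImplicit false

namespace Pool.Agent.P.MP_6d14ae_al.C

open Function U

theorem suf2 {n r p e k : ℕ} (hn : 0 < n) (hp : p.Prime) (hr : r.Prime) (he : 0 < e) (hpe : p ∣ e)
    (h : r ∣ p ^ e - 1) (hk : n = p ^ (e + 1) * k) (k1 : ¬Squarefree k) (k4 : k ≠ 4) :
    Cyc n r := by
  classical
  have := Fact.mk hp
  have := Fact.mk hr
  let _ := Fintype.ofFinite (GaloisField p e)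
  have hc : Fintype.card (GaloisField p e) = p ^ e := by
    rw [← Nat.card_eq_fintype_card, GaloisField.card p e he.ne']
  obtain ⟨α, hα⟩ := exists_prime_orderOf_dvd_card (G := (GaloisField p e)ˣ) r
    (by rwa [Fintype.card_units, hc])
  obtain ⟨φ, ρ, ρ0, hρ, hφ⟩ := fld he hpe
  obtain ⟨s, hs, t, rfl⟩ : ∃ s, s.Prime ∧ s * s ∣ k := by
    simpa [Nat.squarefree_iff_prime_squarefree] using k1
  have t0 : t ≠ 0 := by
    rintro rfl
    simp [hk] at hn
  have := Fact.mk hs
  have : NeZero (s * t) := ⟨mul_ne_zero hs.ne_zero t0⟩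
  let π := ZMod.castHom (dvd_mul_right s t) (ZMod s)
  have key : ∀ j : ZMod s, j + j = 0 → ∀ f : ZMod s × ZMod (s * t) → _ → ZMod s × ZMod (s * t),
      (∀ x y : ZMod s × ZMod (s * t),
        f x y = (y.1 + π x.2, y.2 + if y.1 - x.1 = j then 1 else 0)) →
      ∀ {I : Type} [AddCommGroup I] (ι : _ → I) (δ : I), ((∀ s, Injective (f s)) →
        ∀ x y z, ι (f x y) = ι (f x z) ↔ ι y = ι z) →
      (∀ x y z, ι (f x y) = ι (f x z) + δ ↔ ι y = ι z + δ) → δ ≠ 0 → δ + δ ≠ 0 →
      (∀ y, ∃ x x', f x y = f x' y ∧ ι x = ι y + δ ∧ ι x' ≠ ι y + δ) → ∀ x0 y0,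
      f x0 y0 = y0 → ι y0 = ι x0 + δ → Cyc n r := fun j hj f hf I _ ι δ a1 a2 a3 a4 a5 x0 y0 a6 a7 => by
    have inj : ∀ s, Injective (f s) := by
      rintro ⟨a, x⟩ ⟨b, y⟩ ⟨c, z⟩ e
      simp only [hf, Prod.mk.injEq, add_left_inj] at e
      obtain ⟨rfl, e⟩ := e
      rw [add_right_cancel e]
    have := ext f inj ?_ (fun P h => ?_) ι δ (a1 inj) a2 a3 a4 a5 x0 y0 a6 a7 φ ρ0 hρ
      (fun u : ZMod p => φ^[u.val] α) (fun u => ?_) hr
      (fun u e => α.ne_zero (φ.injective.iterate _ (e.trans (iterate_map_zero φ _).symm))) ?_ ?_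
    · convert this using 1
      rw [Fintype.card_prod, ZMod.card, ZMod.card, hc, hk]
      ring
    · rintro ⟨a, x⟩ ⟨b, y⟩ ⟨c, z⟩
      have e1 : b - a = j ↔ a - b = j :=
        ⟨fun h => by linear_combination -h - hj, fun h => by linear_combination -h - hj⟩
      simp only [hf, Prod.mk.injEq, map_add, add_sub_add_right_eq_sub, e1]
      constructor <;> ring
    · have R1 : ∀ b b' y, P (b, y) ↔ P (b', y) := fun b b' y => by
        obtain ⟨x, hx⟩ := ZMod.castHom_surjective (dvd_mul_right s t) b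
        obtain ⟨x', hx'⟩ := ZMod.castHom_surjective (dvd_mul_right s t) b'
        exact h (b - (j + 1), x') (b' - (j + 1), x) _ _ (by simp [hf, π, hx, hx', add_comm])
      rintro ⟨b, y⟩ ⟨b', y'⟩ hp
      exact (step (fun y => P (b', y)) isUnit_one (fun y =>
        h (b' - j, 0) (b' - (j + 1), 0) _ _ (by simp [hf])) y y').1 ((R1 _ _ _).1 hp)
    · rw [ZMod.val_add, ZMod.val_one, IsPeriodicPt.iterate_mod_apply (hφ _), iterate_succ_apply']
    · simp [← hα, ← Units.val_pow_eq_pow_val]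
    · simpa using fun h : α = 1 => hr.one_lt.ne' (by rw [← hα, h, orderOf_one])
  rcases hs.eq_two_or_odd' with rfl | ho
  · have nz : ∀ a : ℕ, 0 < a → a < 4 → (a : ZMod (2 * t)) ≠ 0 := fun a h h' e => by
      have := Nat.le_of_dvd h ((ZMod.natCast_eq_zero_iff a _).1 e)
      omega
    have p2 : π 3 = 1 := (map_ofNat π 3).trans rfl
    refine key 1 rfl _ (fun _ _ => rfl) id (0, 1) (fun inj x y z => (inj x).eq_iff) ?_
      (by simpa using nz 1 (by omega) (by omega)) (fun e => nz 2 (by omega) (by omega) ?_)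
      (fun y => ⟨y + (0, 1), y + (0, 3), by simp [p2], rfl, fun e => nz 2 (by omega) (by omega) ?_⟩)
      (0, 0) (0, 1) (by simp) (by simp)
    · rintro ⟨a, x⟩ ⟨b, y⟩ ⟨c, z⟩
      simp only [id, Prod.mk_add_mk, Prod.mk.injEq, add_zero, add_left_inj, and_congr_right_iff]
      rintro rfl
      rw [add_right_comm, add_left_inj]
    · have : (1 + 1 : ZMod (2 * t)) = 0 := congrArg Prod.snd e
      push_cast
      linear_combination this
    · have : y.2 + 3 = y.2 + 1 := congrArg Prod.snd e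
      push_cast
      linear_combination this
  · have nz : (1 + 1 : ZMod s) ≠ 0 := fun e => by
      have := Nat.le_of_dvd two_pos ((ZMod.natCast_eq_zero_iff 2 s).1 (by linear_combination e))
      have := hs.two_le
      obtain ⟨_, h⟩ := ho
      omega
    refine key 0 (add_zero 0) _ (fun _ _ => rfl) Prod.fst 1 (fun _ x y z => add_left_inj _)
      (fun x y z => by rw [add_right_comm, add_left_inj]) one_ne_zero nz
      (fun y => ⟨(y.1 + 1, 0), (y.1 - 1, 0), by simp, rfl, fun e => nz ?_⟩) (0, 0) (1, 0)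
      (by simp) (by simp)
    have : y.1 - 1 = y.1 + 1 := e
    linear_combination -this

end Pool.Agent.P.MP_6d14ae_al.C
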