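import Pool.Agent.P.MP_6d14ae_al.U.Suf

/-! A twisted field layer over a base with three channels. -/

set_option autoImplicit false

namespace Pool.Agent.P.MP_6d14ae_al.C

open Function U

theorem ext {B I F : Type} [Fintype B] [AddCommGroup I] [Field F] [Fintype F] {p : ℕ} [NeZero p]
    (f : B → B → B) (inj : ∀ s, Injective (f s))
    (ax : ∀ x y z, f (f x y) (f x z) = f (f y x) (f y z))
    (H : ∀ P : B → Prop, (∀ s s' u u', f s u = f s' u' → (P u ↔ P u')) → ∀ u v, P u → P v)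
    (ι : B → I) (δ : I) (hD : ∀ x y z, ι (f x y) = ι (f x z) ↔ ι y = ι z)
    (hR : ∀ x y z, ι (f x y) = ι (f x z) + δ ↔ ι y = ι z + δ) (d1 : δ ≠ 0) (d2 : δ + δ ≠ 0)
    (hv : ∀ y, ∃ x x', f x y = f x' y ∧ ι x = ι y + δ ∧ ι x' ≠ ι y + δ) (x0 y0 : B)
    (h0 : f x0 y0 = y0) (h1 : ι y0 = ι x0 + δ) (φ : F →+* F) {ρ : F} (ρ0 : ρ ≠ 0)
    (hρ : φ ρ * (1 + ρ) = ρ) (μ : ZMod p → F) (hμ : ∀ u, μ (u + 1) = φ (μ u)) {r : ℕ}
    (hr : r.Prime) (μ0 : ∀ u, μ u ≠ 0) (m1 : μ 0 ^ r = 1) (m2 : μ 0 ≠ 1) :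
    Cyc (Fintype.card B * (p * Fintype.card F)) r := by
  classical
  obtain ⟨g, hg⟩ : ∃ g : B × ZMod p × F → B × ZMod p × F → B × ZMod p × F, ∀ s t, g s t =
      (f s.1 t.1, t.2.1 + if ι s.1 = ι t.1 + δ then 1 else 0,
        if ι t.1 = ι s.1 then φ (t.2.2 + ρ * s.2.2) else
          if ι t.1 = ι s.1 + δ then μ s.2.1 * t.2.2 else t.2.2) := ⟨_, fun _ _ => rfl⟩
  have e1 : ∀ a : I, ¬a = a + δ := fun a h => d1 (by simpa using h)
  have e2 : ∀ a : I, ¬a = a + δ + δ := fun a h => d2 (by simpa [add_assoc] using h)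
  have e3 : ∀ a : I, ¬a + δ = a := fun a h => e1 a h.symm
  have := cyc_of g ?_ ?_ (fun P h => ?_) hr (x0, 0, 0) (y0, 0, 1) ?_ ?_
  · simpa only [Fintype.card_prod, ZMod.card] using this
  · rintro ⟨a, u, x⟩ ⟨b, v, y⟩ ⟨c, w, z⟩ e
    simp only [hg, Prod.mk.injEq] at e
    obtain ⟨e, e', e''⟩ := e
    obtain rfl := inj a e
    obtain rfl := add_right_cancel e'
    split_ifs at e''
    · rw [add_right_cancel (φ.injective e'')]
    · rw [mul_left_cancel₀ (μ0 u) e'']
    · rw [e'']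
  · rintro ⟨a, u, x⟩ ⟨b, v, y⟩ ⟨c, w, z⟩
    simp only [hg, Prod.mk.injEq, hD, hR]
    refine ⟨ax a b c, add_right_comm _ _ _, ?_⟩
    generalize ι a = a
    generalize ι b = b
    generalize ι c = c
    by_cases k1 : c = a
    · subst k1
      by_cases k2 : c = b
      · subst k2
        simp only [if_true]
        congr 1
        simp only [map_add, map_mul]
        linear_combination (φ x - φ y) * hρ
      · by_cases k3 : c = b + δ
        · subst k3
          simp only [if_true, e3, if_false, hμ, map_add, map_mul]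
          ring
        · simp only [if_true, k2, k3, if_false]
    · by_cases k2 : c = b
      · subst k2
        by_cases k3 : c = a + δ
        · subst k3
          simp only [if_true, e3, if_false, hμ, map_add, map_mul]
          ring
        · simp only [if_true, k1, k3, if_false]
      · by_cases k3 : c = a + δ
        · subst k3
          by_cases k4 : a = b
          · subst k4
            simp only [if_true, e1, e3, if_false, add_zero]
            ring
          · simp only [if_true, k1, k2, add_left_inj, k4, Ne.symm k2, if_false, add_zero]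
        · by_cases k4 : c = b + δ
          · subst k4
            simp only [if_true, k1, k2, k3, Ne.symm k1, if_false, add_zero]
          · simp only [k1, k2, k3, k4, if_false]
  · have R1 : ∀ y v z z', P (y, v, z) ↔ P (y, v, z') := fun y v z z' =>
      h (y, 0, 0) (y, 0, (z - z') / ρ) _ _ (by
        simp only [hg, if_true]
        congr 3
        field_simp
        ring)
    have R0 : ∀ x x' y y' v v', f x y = f x' y' →
        (v + if ι x = ι y + δ then 1 else 0) = (v' + if ι x' = ι y' + δ then 1 else 0) →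
        (P (y, v, 0) ↔ P (y', v', 0)) := fun x x' y y' v v' a1 a2 =>
      h (x, 0, 0) (x', 0, 0) _ _ (by simp [hg, a1, a2])
    have R2 : ∀ y v v', P (y, v, 0) ↔ P (y, v', 0) := fun y =>
      step (fun v => P (y, v, 0)) isUnit_one fun v =>
        let ⟨x, x', a1, a2, a3⟩ := hv y
        R0 x x' y y _ _ a1 (by simp [a2, a3])
    rintro ⟨y, v, z⟩ ⟨y', v', z'⟩ hp
    refine (R1 _ _ _ _).1 ((R2 _ 0 _).1 (H (fun y => P (y, 0, 0)) (fun s s' u u' e => ?_) y y'
      ((R2 _ _ _).1 ((R1 _ _ _ _).1 hp))))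
    exact (R2 _ _ _).trans ((R0 s s' u u' _ _ e
      ((sub_add_cancel 0 _).trans (sub_add_cancel 0 _).symm)).trans (R2 _ _ _))
  · have : ∀ k : ℕ, (g (x0, 0, 0))^[k] (y0, 0, 1) = (y0, 0, μ 0 ^ k) := fun k => by
      induction k with
      | zero => simp
      | succ k ih => rw [iterate_succ_apply', ih, hg]; simp [h0, h1, e2, e3, pow_succ']
    rw [this, m1]
  · rw [hg]
    simp [h1, e3, m2]

theorem fld {p e : ℕ} [Fact p.Prime] (he : 0 < e) (hpe : p ∣ e) :
    ∃ (φ : GaloisField p e →+* GaloisField p e) (ρ : GaloisField p e), ρ ≠ 0 ∧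
      φ ρ * (1 + ρ) = ρ ∧ ∀ x, φ^[p] x = x := by
  have hp : p.Prime := Fact.out
  obtain ⟨k, rfl⟩ := hpe
  let F := GaloisField p (p * k)
  have ho := (FiniteField.orderOf_frobeniusAlgHom (ZMod p) F).trans (GaloisField.finrank p he.ne')
  let φ := FiniteField.frobeniusAlgHom (ZMod p) F ^ k
  have h1 : φ ^ p = 1 := by
    rw [← pow_mul, mul_comm k]
    exact orderOf_dvd_iff_pow_eq_one.1 ho.dvd
  have h2 : φ ≠ 1 := pow_ne_one_of_lt_orderOf (right_ne_zero_of_mul he.ne') (by
    rw [ho]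
    exact lt_mul_of_one_lt_left (Nat.pos_of_ne_zero (right_ne_zero_of_mul he.ne')) hp.one_lt)
  have : CharP (Module.End (ZMod p) F) p :=
    charP_of_injective_algebraMap (algebraMap (ZMod p) _).injective p
  have h3 : (AlgHom.toEnd φ - 1 : Module.End (ZMod p) F) ^ p = 0 := by
    rw [sub_pow_char_of_commute p (Commute.one_right _), ← map_pow, h1, map_one, one_pow, sub_self]
  obtain ⟨g, hg⟩ : ∃ g, φ g = g + 1 := by
    by_contra! h
    have h4 : ∀ x, φ (φ x - x) - (φ x - x) = 0 → φ x - x = 0 := fun x k => by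
      by_contra k0
      refine h (x / (φ x - x)) ?_
      rw [map_div₀, sub_eq_zero.1 k, div_add_one k0, add_sub_cancel]
    have h5 : ∀ (i : ℕ) x, ((AlgHom.toEnd φ - 1 : Module.End (ZMod p) F) ^ i) x = 0 →
        φ x - x = 0 := fun i => by
      induction i with
      | zero => rintro x (rfl : x = 0); simp
      | succ i ih => exact fun x k => h4 x (ih _ (by rw [pow_succ] at k; exact k))
    exact h2 (AlgHom.ext fun x => sub_eq_zero.1 (h5 p x (by rw [h3]; rfl)))
  have g0 : g ≠ 0 := by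
    rintro rfl
    simp at hg
  have g1 : g + 1 ≠ 0 := hg ▸ (map_ne_zero φ).2 g0
  refine ⟨φ, g⁻¹, inv_ne_zero g0, ?_, fun x => ?_⟩
  · show φ g⁻¹ * _ = _
    rw [map_inv₀, hg, inv_mul_eq_iff_eq_mul₀ g1, add_mul, mul_inv_cancel₀ g0, one_mul]
  · show φ^[p] x = x
    rw [← AlgHom.coe_pow, h1]
    rfl

theorem suf {n r p e k : ℕ} (hn : 0 < n) (hp : p.Prime) (hr : r.Prime) (he : 0 < e) (hpe : p ∣ e)
    (h : r ∣ p ^ e - 1) (hk : n = p ^ (e + 1) * k) (k1 : ¬Squarefree k) (k4 : k ≠ 4) (k8 : k ≠ 8) :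
    Cyc n r := by
  classical
  have := Fact.mk hp
  have := Fact.mk hr
  let _ := Fintype.ofFinite (GaloisField p e)
  have hc : Fintype.card (GaloisField p e) = p ^ e := by
    rw [← Nat.card_eq_fintype_card, GaloisField.card p e he.ne']
  obtain ⟨α, hα⟩ := exists_prime_orderOf_dvd_card (G := (GaloisField p e)ˣ) r
    (by rwa [Fintype.card_units, hc])
  obtain ⟨φ, ρ, ρ0, hρ, hφ⟩ := fld he hpe
  obtain ⟨s, hs, t, rfl⟩ : ∃ s, s.Prime ∧ s * s ∣ k := by
    simpa [Nat.squarefree_iff_prime_squarefree] using k1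
  have t0 : t ≠ 0 := by
    rintro rfl
    simp [hk] at hn
  have := Fact.mk hs
  have : NeZero (s * t) := ⟨mul_ne_zero hs.ne_zero t0⟩
  let π := ZMod.castHom (dvd_mul_right s t) (ZMod s)
  have key : ∀ j : ZMod s, j + j = 0 → ∀ f : ZMod s × ZMod (s * t) → _ → ZMod s × ZMod (s * t),
      (∀ x y : ZMod s × ZMod (s * t),
        f x y = (y.1 + π x.2, y.2 + if y.1 - x.1 = j then 1 else 0)) →
      ∀ {I : Type} [AddCommGroup I] (ι : _ → I) (δ : I), ((∀ s, Injective (f s)) →
        ∀ x y z, ι (f x y) = ι (f x z) ↔ ι y = ι z) →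
      (∀ x y z, ι (f x y) = ι (f x z) + δ ↔ ι y = ι z + δ) → δ ≠ 0 → δ + δ ≠ 0 →
      (∀ y, ∃ x x', f x y = f x' y ∧ ι x = ι y + δ ∧ ι x' ≠ ι y + δ) → ∀ x0 y0,
      f x0 y0 = y0 → ι y0 = ι x0 + δ → Cyc n r := fun j hj f hf I _ ι δ a1 a2 a3 a4 a5 x0 y0 a6 a7 => by
    have inj : ∀ s, Injective (f s) := by
      rintro ⟨a, x⟩ ⟨b, y⟩ ⟨c, z⟩ e
      simp only [hf, Prod.mk.injEq, add_left_inj] at e
      obtain ⟨rfl, e⟩ := e
      rw [add_right_cancel e]
    have := ext f inj ?_ (fun P h => ?_) ι δ (a1 inj) a2 a3 a4 a5 x0 y0 a6 a7 φ ρ0 hρ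
      (fun u : ZMod p => φ^[u.val] α) (fun u => ?_) hr
      (fun u e => α.ne_zero (φ.injective.iterate _ (e.trans (iterate_map_zero φ _).symm))) ?_ ?_
    · convert this using 1
      rw [Fintype.card_prod, ZMod.card, ZMod.card, hc, hk]
      ring
    · rintro ⟨a, x⟩ ⟨b, y⟩ ⟨c, z⟩
      have e1 : b - a = j ↔ a - b = j :=
        ⟨fun h => by linear_combination -h - hj, fun h => by linear_combination -h - hj⟩
      simp only [hf, Prod.mk.injEq, map_add, add_sub_add_right_eq_sub, e1]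
      constructor <;> ring
    · have R1 : ∀ b b' y, P (b, y) ↔ P (b', y) := fun b b' y => by
        obtain ⟨x, hx⟩ := ZMod.castHom_surjective (dvd_mul_right s t) b
        obtain ⟨x', hx'⟩ := ZMod.castHom_surjective (dvd_mul_right s t) b'
        exact h (b - (j + 1), x') (b' - (j + 1), x) _ _ (by simp [hf, π, hx, hx', add_comm])
      rintro ⟨b, y⟩ ⟨b', y'⟩ hp
      exact (step (fun y => P (b', y)) isUnit_one (fun y =>
        h (b' - j, 0) (b' - (j + 1), 0) _ _ (by simp [hf])) y y').1 ((R1 _ _ _).1 hp)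
    · rw [ZMod.val_add, ZMod.val_one, IsPeriodicPt.iterate_mod_apply (hφ _), iterate_succ_apply']
    · simp [← hα, ← Units.val_pow_eq_pow_val]
    · simpa using fun h : α = 1 => hr.one_lt.ne' (by rw [← hα, h, orderOf_one])
  rcases hs.eq_two_or_odd' with rfl | ho
  · have nz : ∀ a : ℕ, 0 < a → a < 6 → (a : ZMod (2 * t)) ≠ 0 := fun a h h' e => by
      have := Nat.le_of_dvd h ((ZMod.natCast_eq_zero_iff a _).1 e)
      omega
    have p2 : π 2 = 0 := (map_ofNat π 2).trans rfl
    refine key 1 rfl _ (fun _ _ => rfl) id (0, 2) (fun inj x y z => (inj x).eq_iff) ?_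
      (by simpa using nz 2 (by omega) (by omega)) (fun e => nz 4 (by omega) (by omega) ?_)
      (fun y => ⟨y + (0, 2), y, by simp [p2], rfl, ?_⟩) (0, 0) (0, 2) (by simp) (by simp)
    · rintro ⟨a, x⟩ ⟨b, y⟩ ⟨c, z⟩
      simp only [id, Prod.mk_add_mk, Prod.mk.injEq, add_zero, add_left_inj, and_congr_right_iff]
      rintro rfl
      rw [add_right_comm, add_left_inj]
    · have : (2 + 2 : ZMod (2 * t)) = 0 := congrArg Prod.snd e
      push_cast
      linear_combination this
    · simpa using nz 2 (by omega) (by omega)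
  · have nz : (1 + 1 : ZMod s) ≠ 0 := fun e => by
      have := Nat.le_of_dvd two_pos ((ZMod.natCast_eq_zero_iff 2 s).1 (by linear_combination e))
      have := hs.two_le
      obtain ⟨_, h⟩ := ho
      omega
    refine key 0 (add_zero 0) _ (fun _ _ => rfl) Prod.fst 1 (fun _ x y z => add_left_inj _)
      (fun x y z => by rw [add_right_comm, add_left_inj]) one_ne_zero nz
      (fun y => ⟨(y.1 + 1, 0), (y.1 - 1, 0), by simp, rfl, fun e => nz ?_⟩) (0, 0) (1, 0)
      (by simp) (by simp)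
    have : y.1 - 1 = y.1 + 1 := e
    linear_combination -this

end Pool.Agent.P.MP_6d14ae_al.C
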